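import Pool.Agent.V7H59.DN.Main
import Pool.Agent.V7H59.DN.Data

set_option autoImplicit false

namespace Pool.Agent.Results.MP_845d9b_co.LiftedOrdersH59

open Pool.Agent.V7H59.DN
open Pool.Agent.Results.MP_845d9b_co.SevenModEight (DNeofieldOrder)

theorem six_of_coprime {n : ℕ} (hn : n.Coprime 6) : n % 6 = 1 ∨ n % 6 = 5 := by
  have h2 : ¬ 2 ∣ n := fun h => by
    have := Nat.dvd_gcd h (show 2 ∣ 6 by norm_num)
    rw [Nat.Coprime.gcd_eq_one hn] at this
    omega
  have h3 : ¬ 3 ∣ n := fun h => by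
    have := Nat.dvd_gcd h (show 3 ∣ 6 by norm_num)
    rw [Nat.Coprime.gcd_eq_one hn] at this
    omega
  omega

theorem not_pp (k : ℕ) : ¬ IsPrimePow (85 * (72 * k + 1)) := by
  intro h
  obtain ⟨p, e, hp, -, he⟩ := (isPrimePow_nat_iff _).1 h
  have h5 : 5 ∣ p ^ e := by rw [he]; exact ⟨17 * (72 * k + 1), by ring⟩
  have h17 : 17 ∣ p ^ e := by rw [he]; exact ⟨5 * (72 * k + 1), by ring⟩
  have a := (Nat.prime_dvd_prime_iff_eq (by norm_num) hp).1
    ((show Nat.Prime 5 by norm_num).dvd_of_dvd_pow h5)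
  have b := (Nat.prime_dvd_prime_iff_eq (by norm_num) hp).1
    ((show Nat.Prime 17 by norm_num).dvd_of_dvd_pow h17)
  omega

/-- For every `n` coprime to `6` and every `P` of the list there is a D-neofield of order
`P * n + 1`.  Infinitely many of these orders are not prime powers (and not `7` modulo `8`). -/
theorem result :
    (∀ n : ℕ, n.Coprime 6 → ∀ P ∈ [12, 14, 16, 20, 22, 24, 26, 28, 30, 32, 34, 38, 40],
      DNeofieldOrder (P * n + 1)) ∧
    (∀ k : ℕ, DNeofieldOrder (85 * (72 * k + 1)) ∧ ¬ IsPrimePow (85 * (72 * k + 1)) ∧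
      85 * (72 * k + 1) % 8 = 5) := by
  have main : ∀ n : ℕ, n.Coprime 6 →
      ∀ P ∈ [12, 14, 16, 20, 22, 24, 26, 28, 30, 32, 34, 38, 40], DNeofieldOrder (P * n + 1) := by
    intro n hn P hP
    have h6 := six_of_coprime hn
    simp only [List.mem_cons, List.not_mem_nil, or_false] at hP
    rcases hP with rfl | rfl | rfl | rfl | rfl | rfl | rfl | rfl | rfl | rfl | rfl | rfl | rfl
    · exact lift n (h := 6) (by norm_num) h6 ck12
    · exact lift n (h := 7) (by norm_num) h6 ck14
    · exact lift n (h := 8) (by norm_num) h6 ck16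
    · exact lift n (h := 10) (by norm_num) h6 ck20
    · exact lift n (h := 11) (by norm_num) h6 ck22
    · exact lift n (h := 12) (by norm_num) h6 ck24
    · exact lift n (h := 13) (by norm_num) h6 ck26
    · exact lift n (h := 14) (by norm_num) h6 ck28
    · exact lift n (h := 15) (by norm_num) h6 ck30
    · exact lift n (h := 16) (by norm_num) h6 ck32
    · exact lift n (h := 17) (by norm_num) h6 ck34
    · exact lift n (h := 19) (by norm_num) h6 ck38
    · exact lift n (h := 20) (by norm_num) h6 ck40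
  refine ⟨main, fun k => ⟨?_, not_pp k, by omega⟩⟩
  have h1 : (7 + 510 * k).Coprime 6 := by
    have : (7 + 510 * k) % 6 = 1 := by omega
    rw [Nat.coprime_iff_gcd_eq_one, Nat.gcd_comm, Nat.gcd_rec, this]
    norm_num
  have h2 := main (7 + 510 * k) h1 12 (by simp)
  have e : 12 * (7 + 510 * k) + 1 = 85 * (72 * k + 1) := by ring
  rwa [e] at h2

end Pool.Agent.Results.MP_845d9b_co.LiftedOrdersH59
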